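import Pool.Agent.Lib.helper10.NPPred

namespace Pool.Agent.Results.MP_62751d_lc.SparseClass

open Pool.Agent.Cx Finset

/-- formulas of monadic second-order logic of graphs; vertex and set variables are numbered -/
inductive Fm : Type
  | adj : ℕ → ℕ → Fm
  | eq : ℕ → ℕ → Fm
  | mem : ℕ → ℕ → Fm
  | not : Fm → Fm
  | and : Fm → Fm → Fm
  | exV : ℕ → Fm → Fm
  | exS : ℕ → Fm → Fm

/-- truth of a formula in `G` under values for the vertex and the set variables -/
def Fm.Sat {V : Type} (G : SimpleGraph V) : Fm → (ℕ → V) → (ℕ → Set V) → Prop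
  | .adj x y, a, _ => G.Adj (a x) (a y)
  | .eq x y, a, _ => a x = a y
  | .mem x X, a, s => a x ∈ s X
  | .not φ, a, s => ¬ φ.Sat G a s
  | .and φ ψ, a, s => φ.Sat G a s ∧ ψ.Sat G a s
  | .exV x φ, a, s => ∃ v, φ.Sat G (Function.update a x v) s
  | .exS X φ, a, s => ∃ U, φ.Sat G a (Function.update s X U)

/-- `G` satisfies (the universal closure of) `φ` -/
def Models {V : Type} (G : SimpleGraph V) (φ : Fm) : Prop := ∀ a s, φ.Sat G a s

/-- values of `k`-expressions: vertex set, edge relation and labelling -/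
inductive KExp {V : Type} (k : ℕ) : Set V → (V → V → Prop) → (V → Fin k) → Prop
  | single (v : V) (l : V → Fin k) : KExp k {v} (fun _ _ => False) l
  | union {S T : Set V} {E F : V → V → Prop} {l : V → Fin k} : KExp k S E l → KExp k T F l →
      Disjoint S T → KExp k (S ∪ T) (fun x y => E x y ∨ F x y) l
  | join {S : Set V} {E : V → V → Prop} {l : V → Fin k} (i j : Fin k) : i ≠ j → KExp k S E l →
      KExp k S (fun x y => E x y ∨ (x ∈ S ∧ y ∈ S ∧ (l x = i ∧ l y = j ∨ l x = j ∧ l y = i))) l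
  | rename {S : Set V} {E : V → V → Prop} {l l' : V → Fin k} (i j : Fin k) : KExp k S E l →
      (∀ x ∈ S, l' x = if l x = i then j else l x) → KExp k S E l'

/-- clique-width -/
noncomputable def cw {V : Type} (G : SimpleGraph V) : ℕ :=
  sInf {k | ∃ l, KExp k Set.univ G.Adj l}

section
variable {V W : Type}

lemma sat_iso {G : SimpleGraph V} {H : SimpleGraph W} (e : G ≃g H) (φ : Fm) : ∀ a s,
    φ.Sat G a s ↔ φ.Sat H (fun x => e (a x)) (fun X => e '' s X) := by
  induction φ with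
  | adj x y => exact fun a s => e.map_rel_iff.symm
  | eq x y => exact fun a s => e.injective.eq_iff.symm
  | mem x X => exact fun a s => (e.injective.mem_set_image).symm
  | not φ ih => exact fun a s => not_congr (ih a s)
  | and φ ψ ih ih' => exact fun a s => and_congr (ih a s) (ih' a s)
  | exV x φ ih =>
    intro a s
    refine e.toEquiv.exists_congr fun v => (ih _ _).trans (iff_of_eq ?_)
    congr 1; ext y; by_cases h : y = x <;> simp [h]
  | exS X φ ih =>
    intro a s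
    refine (Equiv.Set.congr e.toEquiv).exists_congr fun v => (ih _ _).trans (iff_of_eq ?_)
    congr 1; ext1 y; by_cases h : y = X <;> simp [h]

lemma models_iso {G : SimpleGraph V} {H : SimpleGraph W} (e : G ≃g H) (φ : Fm) :
    Models G φ ↔ Models H φ :=
  ⟨fun h _ _ => (sat_iso e.symm φ _ _).2 (h _ _), fun h _ _ => (sat_iso e φ _ _).2 (h _ _)⟩

lemma KExp.congr {k : ℕ} {S S' : Set V} {E E' : V → V → Prop} {l : V → Fin k} (h : KExp k S E l)
    (h1 : S = S') (h2 : ∀ x y, E x y ↔ E' x y) : KExp k S' E' l := by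
  rwa [← h1, ← show E = E' by ext; exact h2 _ _]

lemma kexp_ex [Fintype V] [Nonempty V] (G : SimpleGraph V) :
    ∃ k l, KExp k Set.univ G.Adj l := by
  classical
  let l := Fintype.equivFin V
  have a : ∀ S : Finset V, S.Nonempty → KExp _ (S : Set V) (fun _ _ => False) l := by
    intro S hS
    induction hS using Finset.Nonempty.cons_induction with
    | singleton v => exact (KExp.single v l).congr (by simp) fun _ _ => Iff.rfl
    | cons v S h _ ih =>
      exact ((KExp.single v l).union ih (by simpa using h)).congr (by simp) (by simp)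
  have b : ∀ F : Finset (V × V), (∀ p ∈ F, p.1 ≠ p.2) →
      KExp _ Set.univ (fun x y => (x, y) ∈ F ∨ (y, x) ∈ F) l := by
    intro F
    induction F using Finset.induction_on with
    | empty => exact fun _ => (a univ univ_nonempty).congr (by simp) (by simp)
    | insert p F _ ih =>
      intro h
      refine ((ih fun q hq => h q (mem_insert_of_mem hq)).join (l p.1) (l p.2)
        (by simpa using h p (mem_insert_self _ _))).congr rfl fun x y => ?_
      simp only [Set.mem_univ, true_and, EmbeddingLike.apply_eq_iff_eq, mem_insert, Prod.ext_iff]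
      tauto
  exact ⟨_, l, (b (univ.filter fun p => G.Adj p.1 p.2) fun p hp => (mem_filter.1 hp).2.ne).congr rfl
    fun x y => by simpa using G.symm.iff y x |>.1⟩

lemma KExp.cut [Finite V] {k : ℕ} {S : Set V} {E : V → V → Prop} {l : V → Fin k} (h : KExp k S E l) :
    (∀ x y, E x y → x ∈ S ∧ y ∈ S) ∧ ∀ t, 1 ≤ t → t ≤ S.ncard → ∃ A ⊆ S, t ≤ A.ncard ∧
      A.ncard ≤ 2 * t ∧ ∃ c : V → Fin k, ∀ x ∈ A, ∀ y ∈ A, c x = c y →
        l x = l y ∧ ∀ z ∈ S, z ∉ A → (E x z ↔ E y z) := by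
  induction h with
  | single v l =>
    refine ⟨by simp, fun t h1 h2 => ⟨_, le_rfl, h2, by simp; omega, l, ?_⟩⟩
    exact fun x _ y _ e => ⟨e, by simp⟩
  | @union S T E F l _ _ hd ih ih' =>
    have d := Set.disjoint_left.1 hd
    refine ⟨fun x y h => h.elim (fun h => ⟨Or.inl (ih.1 _ _ h).1, Or.inl (ih.1 _ _ h).2⟩)
      fun h => ⟨Or.inr (ih'.1 _ _ h).1, Or.inr (ih'.1 _ _ h).2⟩, fun t h1 h2 => ?_⟩
    by_cases a1 : t ≤ S.ncard
    · obtain ⟨A, b1, b2, b3, c, b4⟩ := ih.2 t h1 a1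
      refine ⟨A, b1.trans Set.subset_union_left, b2, b3, c, fun x hx y hy e =>
        ⟨(b4 x hx y hy e).1, fun z hz hz' => ?_⟩⟩
      have := ih.1 x z
      have := ih.1 y z
      have := ih'.1 x z
      have := ih'.1 y z
      have := d (b1 hx)
      have := d (b1 hy)
      have := (b4 x hx y hy e).2 z
      tauto
    by_cases a2 : t ≤ T.ncard
    · obtain ⟨A, b1, b2, b3, c, b4⟩ := ih'.2 t h1 a2
      refine ⟨A, b1.trans Set.subset_union_right, b2, b3, c, fun x hx y hy e =>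
        ⟨(b4 x hx y hy e).1, fun z hz hz' => ?_⟩⟩
      have := ih.1 x z
      have := ih.1 y z
      have := ih'.1 x z
      have := ih'.1 y z
      have := fun h => d h (b1 hx)
      have := fun h => d h (b1 hy)
      have := (b4 x hx y hy e).2 z
      tauto
    · have := Set.ncard_union_le S T
      exact ⟨_, le_rfl, h2, by omega, l, fun x _ y _ e => ⟨e, fun z h h' => absurd h h'⟩⟩
  | join i j _ _ ih =>
    refine ⟨fun x y h => h.elim (ih.1 x y) fun h => ⟨h.1, h.2.1⟩, fun t h1 h2 => ?_⟩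
    obtain ⟨A, b1, b2, b3, c, b4⟩ := ih.2 t h1 h2
    refine ⟨A, b1, b2, b3, c, fun x hx y hy e => ⟨(b4 x hx y hy e).1, fun z hz hz' => ?_⟩⟩
    simp only [(b4 x hx y hy e).2 z hz hz', (b4 x hx y hy e).1, b1 hx, b1 hy]
  | rename i j _ hl ih =>
    refine ⟨ih.1, fun t h1 h2 => ?_⟩
    obtain ⟨A, b1, b2, b3, c, b4⟩ := ih.2 t h1 h2
    refine ⟨A, b1, b2, b3, c, fun x hx y hy e => ⟨?_, (b4 x hx y hy e).2⟩⟩
    rw [hl x (b1 hx), hl y (b1 hy), (b4 x hx y hy e).1]

open Classical in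
lemma split_le {m k : ℕ} {E : V → V → Prop} (p : Fin m → Fin m → V)
    (hp : ∀ i j i' j', E (p i j) (p i' j') ↔ ¬ (i = i' ∧ j = j') ∧ (i = i' ∨ j = j'))
    {A : Set V} {c : V → Fin k} (hc : ∀ x ∈ A, ∀ y ∈ A, c x = c y → ∀ z, z ∉ A → (E x z ↔ E y z)) :
    (univ.filter fun i => (∃ j, p i j ∈ A) ∧ ∃ j, p i j ∉ A).card ≤ 2 * k := by
  have : ∀ i, ∃ a b, (∃ j, p i j ∈ A) ∧ (∃ j, p i j ∉ A) → p i a ∈ A ∧ p i b ∉ A := fun i => by
    by_cases h : (∃ j, p i j ∈ A) ∧ ∃ j, p i j ∉ A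
    · obtain ⟨⟨a, ha⟩, b, hb⟩ := h; exact ⟨a, b, fun _ => ⟨ha, hb⟩⟩
    · exact ⟨i, i, fun h' => absurd h' h⟩
  choose a b hab using this
  refine (card_le_mul_card_image_of_maps_to (t := univ) (f := fun i => c (p i (a i))) (by simp) 2
    fun q _ => not_lt.1 fun h => ?_).trans (by simp)
  obtain ⟨i, j, l, hi, hj, hl, e1, e2, e3⟩ := two_lt_card_iff.1 h
  simp only [mem_filter, mem_univ, true_and] at hi hj hl
  have key : ∀ i j, ((∃ j, p i j ∈ A) ∧ ∃ j, p i j ∉ A) ∧ c (p i (a i)) = q →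
      ((∃ i, p j i ∈ A) ∧ ∃ i, p j i ∉ A) ∧ c (p j (a j)) = q → i ≠ j → a j = b i := by
    intro i j hi hj e
    have h1 := hab i hi.1
    have h2 := (hc _ h1.1 _ (hab j hj.1).1 (hi.2.trans hj.2.symm) _ h1.2).1
      ((hp _ _ _ _).2 ⟨fun h => h1.2 (h.2 ▸ h1.1), Or.inl rfl⟩)
    exact ((hp _ _ _ _).1 h2).2.resolve_left e.symm
  have h1 := hab i hi.1
  rw [key j i hj hi e1.symm, ← key j l hj hl e3, key i l hi hl e2] at h1
  exact h1.2 h1.1

end

def rook (m : ℕ) : SimpleGraph (Fin m × Fin m) := SimpleGraph.fromRel fun x y => x.1 = y.1 ∨ x.2 = y.2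

lemma rook_cw {V : Type} {G : SimpleGraph V} {s : ℕ} (hs : 0 < s) (e : G ≃g rook (3 * s)) :
    s ≤ 2 * cw G := by
  classical
  have := Fintype.ofEquiv _ e.toEquiv.symm
  have : Nonempty V := ⟨e.symm (⟨0, by omega⟩, ⟨0, by omega⟩)⟩
  obtain ⟨l, h⟩ : ∃ l, KExp (cw G) Set.univ G.Adj l := Nat.sInf_mem (kexp_ex G)
  generalize cw G = k at *
  have c0 : (Set.univ : Set V).ncard = 3 * s * (3 * s) := by
    rw [Set.ncard_univ, Nat.card_congr e.toEquiv]; simp
  obtain ⟨A, -, a1, a2, c, a3⟩ := h.cut.2 (3 * s * s) (by nlinarith) (by nlinarith)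
  have hp : ∀ i j i' j', G.Adj (e.symm (i, j)) (e.symm (i', j')) ↔
      ¬ (i = i' ∧ j = j') ∧ (i = i' ∨ j = j') := fun i j i' j' => by
    rw [e.symm.map_rel_iff]; simp only [rook, SimpleGraph.fromRel_adj, ne_eq, Prod.mk.injEq]; tauto
  have hc := fun x hx y hy h z => (a3 x hx y hy h).2 z trivial
  have s1 := split_le (fun i j => e.symm (i, j)) hp hc
  have s2 := split_le (fun i j => e.symm (j, i)) (fun i j i' j' => by rw [hp]; tauto) hc
  have cov : ∀ B : Set V, (∀ i j, e.symm (i, j) ∈ B → (∃ j, e.symm (i, j) ∈ A) ∧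
      ∃ j, e.symm (i, j) ∉ A) → B.ncard ≤ 2 * k * (3 * s) := fun B hB => by
    refine (Set.ncard_le_ncard_of_injOn (t := ((univ.filter fun i => (∃ j, e.symm (i, j) ∈ A) ∧
      ∃ j, e.symm (i, j) ∉ A) ×ˢ (univ : Finset (Fin (3 * s))) : Finset _)) e (fun x hx => ?_)
      e.injective.injOn).trans ?_
    · simpa using hB (e x).1 (e x).2 (by simpa using hx)
    · rw [Set.ncard_coe_finset, card_product, card_univ, Fintype.card_fin]
      exact Nat.mul_le_mul_right _ s1
  by_cases h1 : ∀ i, ∃ j, e.symm (i, j) ∉ A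
  · have := cov A fun i j h => ⟨⟨j, h⟩, h1 i⟩
    nlinarith
  by_cases h2 : ∀ i, ∃ j, e.symm (i, j) ∈ A
  · have := cov Aᶜ fun i j h => ⟨h2 i, j, h⟩
    have := Set.ncard_add_ncard_compl A
    rw [← Set.ncard_univ, c0] at this
    nlinarith
  push Not at h1 h2
  obtain ⟨i, h1⟩ := h1
  obtain ⟨j, h2⟩ := h2
  rw [filter_true_of_mem fun q _ => ⟨⟨i, h1 q⟩, j, h2 q⟩, card_univ, Fintype.card_fin] at s2
  omega

def code : Fm → ℕ
  | .adj x y => Nat.pair 0 (Nat.pair x y)
  | .eq x y => Nat.pair 1 (Nat.pair x y)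
  | .mem x y => Nat.pair 2 (Nat.pair x y)
  | .not φ => Nat.pair 3 (code φ)
  | .and φ ψ => Nat.pair 4 (Nat.pair (code φ) (code ψ))
  | .exV x φ => Nat.pair 5 (Nat.pair x (code φ))
  | .exS x φ => Nat.pair 6 (Nat.pair x (code φ))

lemma code_inj : Function.Injective code := by
  intro φ
  induction φ <;> intro ψ h <;> cases ψ <;> simp only [code, Nat.pair_eq_pair] at h <;>
    first | omega | (simp only [true_and] at h; simp_all)
  all_goals tauto

lemma rook_ex (m : ℕ) : ∃ M, IsGraph M ∧ Nonempty (graphOf M ≃g rook m) := by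
  classical
  refine ⟨gmat (univ : Finset (Fin m × Fin m)).toList fun x y => decide (x.1 = y.1 ∨ x.2 = y.2),
    isGraph_gmat _ _, ⟨(gmatIso _ _ (nodup_toList _)).trans
      ⟨Equiv.subtypeUnivEquiv (by simp), fun {x y} => ?_⟩⟩⟩
  simp [listGraph_adj, rook, SimpleGraph.fromRel_adj]

lemma rook_len {M : List (List Bool)} {m : ℕ} (e : graphOf M ≃g rook m) : M.length = m * m := by
  simpa using Fintype.card_congr e.toEquiv

theorem result : ∃ C : Set (List (List Bool)), (∀ M ∈ C, IsGraph M) ∧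
    (∀ M ∈ C, ∀ M', IsGraph M' → Nonempty (graphOf M ≃g graphOf M') → M' ∈ C) ∧
    (∀ c : ℝ, ∃ M ∈ C, 2 ≤ M.length ∧ c * Real.log M.length < cw (graphOf M)) ∧
    ∀ φ : Fm, ∃ L, InP L ∧ ∀ M ∈ C, (enc M ∈ L ↔ Models (graphOf M) φ) := by
  classical
  let b : Fm → Prop := fun φ => ∀ᶠ s in (Filter.hyperfilter ℕ : Filter ℕ), Models (rook (3 * s)) φ
  have h1 : ∀ j, ∃ s, j < s ∧ ∀ φ ∈ code ⁻¹' Set.Iic j, (Models (rook (3 * s)) φ ↔ b φ) := fun j => by
    refine Filter.Eventually.exists (f := (Filter.hyperfilter ℕ : Filter ℕ)) (Filter.Eventually.and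
      (Nat.hyperfilter_le_atTop (Filter.eventually_gt_atTop j))
      ((Filter.eventually_all_finite ((Set.finite_Iic j).preimage code_inj.injOn)).2 fun φ _ => ?_))
    by_cases h : b φ
    · exact h.mono fun s hs => iff_of_true hs h
    · exact (Ultrafilter.eventually_not.2 h).mono fun s hs => iff_of_false hs h
  choose σ h1 h2 using h1
  refine ⟨{M | IsGraph M ∧ ∃ j, Nonempty (graphOf M ≃g rook (3 * σ j))}, fun M h => h.1,
    fun M ⟨_, j, ⟨e⟩⟩ M' h ⟨e'⟩ => ⟨h, j, ⟨e'.symm.trans e⟩⟩, fun c => ?_, fun φ => ?_⟩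
  · obtain ⟨x, hx⟩ := Filter.eventually_atTop.1 (Real.isLittleO_log_id_atTop.bound
      (show 0 < 1 / (24 * (|c| + 1)) by positivity))
    obtain ⟨j, hj⟩ := exists_nat_ge x
    obtain ⟨M, hM, ⟨e⟩⟩ := rook_ex (3 * σ j)
    have a1 := h1 j
    have a2 := rook_cw (by omega) e
    refine ⟨M, ⟨hM, j, ⟨e⟩⟩, by rw [rook_len e]; nlinarith, ?_⟩
    have a3 : (j : ℝ) + 1 ≤ σ j := by exact_mod_cast a1
    have a4 : (σ j : ℝ) ≤ 2 * cw (graphOf M) := by exact_mod_cast a2
    have a0 : (0 : ℝ) ≤ j := Nat.cast_nonneg _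
    have a5 := hx (3 * σ j) (by linarith)
    have a6 := Real.log_nonneg (show (1 : ℝ) ≤ 3 * σ j by linarith)
    rw [Real.norm_of_nonneg a6, id, Real.norm_of_nonneg (by linarith), one_div, inv_mul_eq_div,
      le_div_iff₀ (by positivity)] at a5
    rw [show (M.length : ℝ) = 3 * σ j * (3 * σ j) by exact_mod_cast rook_len e, Real.log_mul (by linarith) (by linarith)]
    nlinarith [le_abs_self c]
  · let T : Prop → List ℕ := fun q => ((List.range (code φ)).filter fun j =>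
      decide (Models (rook (3 * σ j)) φ ↔ q)).map fun j => 3 * σ j * (3 * σ j)
    obtain ⟨f, hf, e⟩ : PP fun M : List (List Bool) =>
        M.length ∈ T True ∨ (¬ M.length ∈ T False ∧ b φ) := by fun_prop
    refine ⟨_, inP_Lang hf e, fun M ⟨_, j, ⟨i⟩⟩ => ?_⟩
    have t : ∀ q, 3 * σ j * (3 * σ j) ∈ T q ↔ (Models (rook (3 * σ j)) φ ↔ q) ∧
        ∃ i < code φ, σ i = σ j := fun q => by
      simp only [T, List.mem_map, List.mem_filter, List.mem_range, decide_eq_true_eq,
        Nat.mul_self_inj]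
      constructor
      · rintro ⟨i, ⟨a1, a2⟩, a3⟩
        exact ⟨a3 ▸ a2, i, a1, by omega⟩
      · rintro ⟨a1, i, a2, a3⟩
        exact ⟨i, ⟨a2, a3 ▸ a1⟩, by omega⟩
    rw [mem_Lang, models_iso i, rook_len i, t, t]
    by_cases c : j < code φ
    · have : ∃ i < code φ, σ i = σ j := ⟨j, c, rfl⟩
      by_cases d : Models (rook (3 * σ j)) φ <;> simp [d, this]
    · have := h2 j φ (not_lt.1 c)
      by_cases d : Models (rook (3 * σ j)) φ <;> simp [d, ← this]

end Pool.Agent.Results.MP_62751d_lc.SparseClass
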